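import Mathlib

/-!
# A kernel-fast checker for reverse unit propagation proofs

A literal over the variables `0, …, W - 1` is a number `k < 2 * W`: `k < W` says that variable `k` is
true, the negation of literal `k` is literal `2 * W - 1 - k`.  A clause is a natural number whose
bits are its literals.  A database is a function `db : ℕ → ℕ` which gives clause number `j`.  The
proof that clause `i` follows from the clauses before it is a sequence of hints; a hint `d` (17
bits) refers to clause `i - (d + 1)`.
-/

namespace H40.Rup

/-- truth of literal `k` -/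
def tl (W : ℕ) (a : ℕ → Bool) (k : ℕ) : Bool := if k < W then a k else !a (2 * W - 1 - k)

/-- the assignment `a` satisfies the clause `C` -/
def holds (W : ℕ) (a : ℕ → Bool) (C : ℕ) : Prop :=
  ∃ k < 2 * W, C.testBit k = true ∧ tl W a k = true

/-- a marker which makes the kernel restart its evaluation loop -/
def lk (b : Bool) : Bool := b

/-- the run: `i` the clause being proved, `h` the stream of hints, `G` a set of literals which
contains all true literals if clause `i` is false; `E` the last clause to be proved -/
noncomputable def go (M P : ℕ) (db : ℕ → ℕ) (E : ℕ) (n : ℕ) : ℕ → ℕ → ℕ → Bool :=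
  Nat.rec (motive := fun _ => ℕ → ℕ → ℕ → Bool)
    (fun _ _ _ => false)
    (fun _ ih i h G =>
      Nat.rec (motive := fun _ => Bool)
        (Bool.rec
          (lk (ih (Nat.succ i) (Nat.shiftRight h 17)
            (Nat.xor (Nat.land M (db (Nat.succ i))) M))) true (Nat.beq i E))
        (fun k _ =>
          Nat.rec (motive := fun _ => Bool)
            (lk (ih i (Nat.shiftRight h 17) (Nat.xor G (Nat.div P (Nat.succ k)))))
            (fun _ _ => false)
            (Nat.land (Nat.succ k) k))
        (Nat.land G (db (Nat.sub i (Nat.succ (Nat.land h 131071))))))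
    n

/-- all true literals are in `G` -/
def Inv (W : ℕ) (a : ℕ → Bool) (G : ℕ) : Prop :=
  ∀ k < 2 * W, tl W a k = true → G.testBit k = true

theorem tl_neg {W : ℕ} {a : ℕ → Bool} {k : ℕ} (hk : k < 2 * W) :
    tl W a (2 * W - 1 - k) = !tl W a k := by
  unfold tl
  by_cases h : k < W
  · rw [if_neg (by omega), if_pos h]
    congr 2
    omega
  · rw [if_pos (by omega), if_neg h]
    simp

theorem inv_start {W M : ℕ} (hM : ∀ k < 2 * W, M.testBit k = true) {a : ℕ → Bool} {C : ℕ}
    (hC : ¬ holds W a C) : Inv W a (Nat.xor (Nat.land M C) M) := by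
  intro k hk ht
  have h1 : C.testBit k = false := by
    by_contra h
    exact hC ⟨k, hk, by simpa using h, ht⟩
  change ((M &&& C) ^^^ M).testBit k = true
  rw [Nat.testBit_xor, Nat.testBit_and, h1, hM k hk]
  rfl

theorem pow_of_single {r k : ℕ} (h0 : r ≠ 0) (h : r &&& (r - 1) = 0) (hk : r.testBit k = true) :
    r = 2 ^ k := by
  rw [Nat.and_sub_one_eq_zero_iff_isPowerOfTwo h0] at h
  obtain ⟨m, rfl⟩ := h
  rw [Nat.testBit_two_pow] at hk
  simp at hk
  rw [hk]

theorem go_sound {W M P : ℕ} (hP : P = 2 ^ (2 * W - 1)) (hM : ∀ k < 2 * W, M.testBit k = true)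
    (db : ℕ → ℕ) (E : ℕ) (a : ℕ → Bool) (n : ℕ) :
    ∀ i h G, go M P db E n i h G = true → 0 < i → (∀ j < i, holds W a (db j)) →
      ¬ Inv W a G ∧ (holds W a (db i) → ∀ j < E + 1, holds W a (db j)) := by
  induction n with
  | zero => intro i h G hg; simp [go] at hg
  | succ n ih =>
    intro i h G hg hi hpre
    change Nat.rec (motive := fun _ => Bool)
        (Bool.rec
          (lk (go M P db E n (Nat.succ i) (Nat.shiftRight h 17)
            (Nat.xor (Nat.land M (db (Nat.succ i))) M))) true (Nat.beq i E))
        (fun k _ =>
          Nat.rec (motive := fun _ => Bool)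
            (lk (go M P db E n i (Nat.shiftRight h 17) (Nat.xor G (Nat.div P (Nat.succ k)))))
            (fun _ _ => false)
            (Nat.land (Nat.succ k) k))
        (Nat.land G (db (Nat.sub i (Nat.succ (Nat.land h 131071))))) = true at hg
    set j := Nat.sub i (Nat.succ (Nat.land h 131071)) with hj
    have hji : j < i := by
      rw [hj]; change i - (Nat.land h 131071 + 1) < i; omega
    have hD := hpre j hji
    -- if all true literals are in `G`, then the intersection is nonzero
    have hr : Inv W a G → ∃ k < 2 * W, (Nat.land G (db j)).testBit k = true ∧ tl W a k = true := by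
      intro hI
      obtain ⟨k, hk, hk1, hk2⟩ := hD
      refine ⟨k, hk, ?_, hk2⟩
      change (G &&& db j).testBit k = true
      rw [Nat.testBit_and, hI k hk hk2, hk1]; rfl
    generalize hre : Nat.land G (db j) = r at hg hr
    cases r with
    | zero =>
      refine ⟨fun hI => ?_, fun hh => ?_⟩
      · obtain ⟨k, _, hk, _⟩ := hr hI
        simp at hk
      · by_cases hE : i = E
        · subst hE
          intro m hm
          rcases Nat.lt_or_ge m i with h1 | h1
          · exact hpre m h1
          · have : m = i := by omega
            rw [this]; exact hh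
        · have hb : Nat.beq i E = false := by
            cases hc : Nat.beq i E with
            | false => rfl
            | true => exact absurd (Nat.eq_of_beq_eq_true hc) hE
          change Bool.rec (lk (go M P db E n (Nat.succ i) (Nat.shiftRight h 17)
            (Nat.xor (Nat.land M (db (Nat.succ i))) M))) true (Nat.beq i E) = true at hg
          rw [hb] at hg
          have hpre' : ∀ m < i + 1, holds W a (db m) := by
            intro m hm
            rcases Nat.lt_or_ge m i with h1 | h1
            · exact hpre m h1
            · have : m = i := by omega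
              rw [this]; exact hh
          obtain ⟨h1, h2⟩ := ih (i + 1) _ _ hg (by omega) hpre'
          exact h2 (by
            by_contra hcon
            exact h1 (inv_start hM hcon))
    | succ k =>
      change Nat.rec (motive := fun _ => Bool)
            (lk (go M P db E n i (Nat.shiftRight h 17) (Nat.xor G (Nat.div P (Nat.succ k)))))
            (fun _ _ => false)
            (Nat.land (Nat.succ k) k) = true at hg
      generalize hs : Nat.land (Nat.succ k) k = s at hg
      cases s with
      | succ s => simp at hg
      | zero =>
        obtain ⟨h1, h2⟩ := ih i _ _ hg hi hpre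
        refine ⟨fun hI => h1 ?_, h2⟩
        obtain ⟨q, hq, hq1, hq2⟩ := hr hI
        have hpow : k + 1 = 2 ^ q := pow_of_single (by omega) hs hq1
        intro m hm hmt
        change (G ^^^ (P / (k + 1))).testBit m = true
        rw [hpow, hP, Nat.pow_div (by omega) (by norm_num), Nat.testBit_xor, hI m hm hmt,
          Nat.testBit_two_pow]
        have : 2 * W - 1 - q ≠ m := by
          rintro rfl
          rw [tl_neg hq, hq2] at hmt
          exact absurd hmt (by decide)
        simp [this]

/-- the clauses before `m` follow from the clauses before `i` -/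
def Seg (W : ℕ) (db : ℕ → ℕ) (i m : ℕ) : Prop :=
  ∀ a : ℕ → Bool, (∀ j < i, holds W a (db j)) → ∀ j < m, holds W a (db j)

theorem Seg.trans {W : ℕ} {db : ℕ → ℕ} {i m p : ℕ} (h1 : Seg W db i m) (h2 : Seg W db m p) :
    Seg W db i p := fun a h => h2 a (h1 a h)

theorem seg {W M P : ℕ} (hP : P = 2 ^ (2 * W - 1)) (hM : M = 2 ^ (2 * W) - 1)
    {db : ℕ → ℕ} {E n i h : ℕ} (hi : 0 < i)
    (hg : go M P db E n i h (Nat.xor (Nat.land M (db i)) M) = true) :
    Seg W db i (E + 1) := by
  intro a hpre
  have hM' : ∀ k < 2 * W, M.testBit k = true := by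
    intro k hk
    rw [hM, Nat.testBit_two_pow_sub_one]
    simpa using hk
  obtain ⟨h1, h2⟩ := go_sound hP hM' db E a n i h _ hg hi hpre
  exact h2 (by
    by_contra hcon
    exact h1 (inv_start hM' hcon))

theorem false_of_seg {W : ℕ} {db : ℕ → ℕ} {i m j : ℕ} (h : Seg W db i m) (hj : j < m)
    (h0 : db j = 0) (a : ℕ → Bool) (ha : ∀ j < i, holds W a (db j)) : False := by
  obtain ⟨k, _, hk, _⟩ := h a ha j hj
  rw [h0] at hk
  simp at hk

end H40.Rup
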